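import Pool.Agent.Q101.HfD

/-!
# Hereditary frequent hypercyclicity does not imply hereditary `𝒰`-frequent hypercyclicity
-/

namespace Pool.Agent.Results.MP_5ec4bc_an.HereditaryFHC

open Filter

/-- The lower density `liminf_N |A ∩ [1,N]| / N`. -/
noncomputable def lowerDensity (A : Set ℕ) : ℝ :=
  liminf (fun N : ℕ => ((A ∩ Set.Icc 1 N).ncard : ℝ) / N) atTop

/-- The upper density `limsup_N |A ∩ [1,N]| / N`. -/
noncomputable def upperDensity (A : Set ℕ) : ℝ :=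
  limsup (fun N : ℕ => ((A ∩ Set.Icc 1 N).ncard : ℝ) / N) atTop

/-- The family of sets of positive lower density. -/
def FamD : Set (Set ℕ) := {A | 0 < lowerDensity A}

/-- The family of sets of positive upper density. -/
def FamU : Set (Set ℕ) := {A | 0 < upperDensity A}

/-- The visit set `{n : T^n x ∈ V}`. -/
def visit {X : Type} (T : X → X) (x : X) (V : Set X) : Set ℕ := {n | T^[n] x ∈ V}

/-- `T` is hereditarily `F`-hypercyclic. -/
def HereditarilyHypercyclic {X : Type} [TopologicalSpace X] (F : Set (Set ℕ)) (T : X → X) : Prop :=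
  ∀ (I : Type) [Countable I] (V : I → Set X) (A : I → Set ℕ),
    (∀ i, IsOpen (V i)) → (∀ i, (V i).Nonempty) → (∀ i, A i ∈ F) →
      ∃ x : X, ∀ i, visit T x (V i) ∩ A i ∈ F

/-- **A hereditarily frequently hypercyclic operator which is not hereditarily `𝒰`-frequently
hypercyclic**, on a separable infinite-dimensional Banach space over `ℝ` or `ℂ`. -/
theorem result (𝕜 : Type) [RCLike 𝕜] :
    ∃ (X : Type) (_ : NormedAddCommGroup X) (_ : NormedSpace 𝕜 X) (T : X →L[𝕜] X),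
      CompleteSpace X ∧ TopologicalSpace.SeparableSpace X ∧ ¬ FiniteDimensional 𝕜 X ∧
      HereditarilyHypercyclic FamD T ∧ ¬ HereditarilyHypercyclic FamU T ∧
      ∃ (V : Set X) (A : Set ℕ), IsOpen V ∧ V.Nonempty ∧ 1 / 2 ≤ upperDensity A ∧
        ∀ x : X, upperDensity (visit T x V ∩ A) = 0 := by
  have hneg : ∀ x : Q101Hf.X 𝕜,
      upperDensity (visit (Q101Hf.Tb (𝕜 := 𝕜)) x (Q101Hf.O₀ 𝕜) ∩ Q101Hf.A₀) = 0 := by
    intro x
    refine Q101Hf.ud_zero fun δ hδ => ?_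
    obtain ⟨N₀, h⟩ := Q101Hf.visit_small x (show 0 < δ / 3 by positivity)
    refine ⟨N₀, fun N hN => (h N hN).trans (le_of_eq (by ring))⟩
  refine ⟨Q101Hf.X 𝕜, inferInstance, inferInstance, Q101Hf.Tb, inferInstance, inferInstance,
    Q101Hf.not_finiteDimensional, ?_, ?_, Q101Hf.O₀ 𝕜, Q101Hf.A₀, Q101Hf.isOpen_O₀,
    Q101Hf.O₀_nonempty, Q101Hf.ud_A₀, hneg⟩
  · intro I _ V A hV hne hA
    rcases isEmpty_or_nonempty I with hI | hI
    · exact ⟨0, fun i => (hI.false i).elim⟩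
    · obtain ⟨g, hg⟩ := exists_surjective_nat I
      obtain ⟨x, hx⟩ := Q101Hf.hereditary (𝕜 := 𝕜) (fun n => V (g n)) (fun n => hV _)
        (fun n => hne _) (fun n => A (g n)) fun n => Q101Hf.PLD_of_ld_pos (hA (g n))
      refine ⟨x, fun i => ?_⟩
      obtain ⟨n, rfl⟩ := hg i
      exact Q101Hf.ld_pos_of_PLD (hx n)
  · intro h
    have hU : Q101Hf.A₀ ∈ FamU :=
      lt_of_lt_of_le (by norm_num : (0 : ℝ) < 1 / 2) Q101Hf.ud_A₀
    obtain ⟨x, hx⟩ := h Unit (fun _ => Q101Hf.O₀ 𝕜) (fun _ => Q101Hf.A₀)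
      (fun _ => Q101Hf.isOpen_O₀) (fun _ => Q101Hf.O₀_nonempty) fun _ => hU
    have h1 := hx ()
    have h2 : 0 < upperDensity (visit (Q101Hf.Tb (𝕜 := 𝕜)) x (Q101Hf.O₀ 𝕜) ∩ Q101Hf.A₀) := h1
    rw [hneg x] at h2
    exact lt_irrefl _ h2

end Pool.Agent.Results.MP_5ec4bc_an.HereditaryFHC
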